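import Pool.Agent.R323.Cvt

/-!
# MP_c076ed_nt: uniform boundedness for all but few conjugacy classes of rational maps

For every `d ≥ 2` and `ε > 0` there are `N` and `C` such that for every `X ≥ 1` at most `C X ^ ε`
conjugacy classes over `ℚ` contain an endomorphism of the projective line of degree `d` over `ℚ` which
is given by integral coefficients of absolute value at most `X` and has more than `N` rational
preperiodic points: every set of such endomorphisms which are pairwise not conjugate over `ℚ` has at
most `C X ^ ε` elements.  There is no restriction to a family: all rational maps of degree `d` are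
allowed, and the number of all conjugacy classes of height at most `X` grows like a positive power
of `X`.

Proof.  Suppose not.  Then there are sets `S_ν` of pairwise non-conjugate endomorphisms `f` with
coefficients at most `X_ν`, more than `X_ν ^ ε` of them, and rational preperiodic points `z_f` whose
first `ν` iterates are different; with the resultant one sees that all the iterates have height at most
a power of `X_ν`.  In an ultraproduct we get a generic internal set of pairs `(f, z_f)` with a function
field `F` over the field `K` of nonstandard integers of polynomial size.  The determinant method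
(integral combinations of the monomials in the parameters and in numerator and denominator of the
`n`-th iterate, which vanish on residue classes modulo primes of size `X ^ η` by a Newton expansion and
the pigeonhole principle) shows that the `n`-th iterates of the generic point satisfy algebraic
relations of degree bounded independently of `n`; so over each subfield `k` of `F` with a place theory
the orbit of the generic point has bounded height and is infinite.  The Green pairings of different
points of the orbit have a sum over all places which is at most zero; where the minimal size of the map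
is positive, energy estimates (transfinite diameters of the backward orbits) bound the number of points,
so at no place it is positive, all the pairings vanish and the cross ratios of the orbit are constant,
hence algebraic over `K`.  So on the generic set these cross ratios take boundedly many values, two
pairs `(f, z)`, `(f', z')` have the same first `2 d` cross ratios, and a coordinate change over `ℚ` takes
the first `2 d + 3` iterates of `z` to those of `z'` and conjugates `f` to `f'`.
-/

set_option autoImplicit false

namespace Pool.Agent.Results.MP_c076ed_nt.FewExceptionalClasses

/-- The value at `v` of the pair `F` of binary forms of degree `d` with integral coefficients: `F i j` is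
the coefficient of `x ^ j y ^ (d - j)` in the `i`-th form. -/
def act {d : ℕ} {K : Type} [Field K] (F : Fin 2 → Fin (d + 1) → ℤ) (v : Fin 2 → K) : Fin 2 → K :=
  fun i => ∑ j : Fin (d + 1), (F i j : K) * v 0 ^ (j : ℕ) * v 1 ^ (d - (j : ℕ))

/-- The two forms have no common zero in the projective line over the algebraic closure of `ℚ`:
`F` defines an endomorphism of the projective line of degree `d` over `ℚ`. -/
def IsEndomorphism {d : ℕ} (F : Fin 2 → Fin (d + 1) → ℤ) : Prop :=
  ∀ v : Fin 2 → AlgebraicClosure ℚ, act F v = 0 → v = 0

/-- The set of the rational preperiodic points: the points `p` of the projective line over `ℚ` such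
that the `n`-th and the `m`-th iterate at `p` are proportional for some `m < n`. -/
def preperiodic {d : ℕ} (F : Fin 2 → Fin (d + 1) → ℤ) : Set (Projectivization ℚ (Fin 2 → ℚ)) :=
  {p | ∃ m n : ℕ, m < n ∧ ∃ c : ℚ, c ≠ 0 ∧ (act F)^[n] p.rep = c • (act F)^[m] p.rep}

/-- The endomorphisms `F` and `G` are conjugate over `ℚ`: for an invertible rational matrix `A` we have
`G (A v) = A (F v)` in the projective line for all `v`. -/
def Conjugate {d : ℕ} (F G : Fin 2 → Fin (d + 1) → ℤ) : Prop :=
  ∃ A : Matrix (Fin 2) (Fin 2) ℚ, A.det ≠ 0 ∧ ∀ v : Fin 2 → ℚ, v ≠ 0 → ∃ c : ℚ, c ≠ 0 ∧
    act G (A.mulVec v) = c • A.mulVec (act F v)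

/-- **Few exceptional conjugacy classes.**  For `d ≥ 2` and `ε > 0` there are `N` and `C` such that for
`X ≥ 1` every finite set of endomorphisms of degree `d` given by integral coefficients of absolute value
at most `X`, each with more than `N` rational preperiodic points, which are pairwise not conjugate
over `ℚ`, has at most `C X ^ ε` elements. -/
theorem result (d : ℕ) (hd : 2 ≤ d) (ε : ℝ) (hε : 0 < ε) :
    ∃ (N : ℕ) (C : ℝ), ∀ X : ℕ, 1 ≤ X → ∀ S : Finset (Fin 2 → Fin (d + 1) → ℤ),
      (∀ F ∈ S, IsEndomorphism F ∧ (∀ i j, |F i j| ≤ (X : ℤ)) ∧
        (N : ℕ∞) < (preperiodic F).encard) →
      (∀ F ∈ S, ∀ G ∈ S, F ≠ G → ¬ Conjugate F G) →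
      (S.card : ℝ) ≤ C * (X : ℝ) ^ ε := by
  obtain ⟨N, C, h⟩ := Pool.Agent.R323.main d hd ε hε
  refine ⟨N, C, fun X hX S hS hconj => h X hX S (fun F hF => ?_) hconj⟩
  obtain ⟨h1, h2, h3⟩ := hS F hF
  exact ⟨h2, Pool.Agent.R323.NZ_of (by omega) h1, Pool.Agent.R323.many_of F N h3⟩

end Pool.Agent.Results.MP_c076ed_nt.FewExceptionalClasses
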