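import Pool.Agent.R414.EG.Law

/-!
# The limit law of the portraits of the endomorphisms of `P^1` with at least `k` preperiodic points

Let `D, k ≥ 1` and `d ≥ d₀(D, k)`. Consider the pairs of integral binary forms of degree `d` with
coefficients of absolute value at most `H` which define an endomorphism of `P^1` with at least `k`
preperiodic points of degree at most `D` over `ℚ`. Their number is asymptotically
`κ H^(2 (d + 1) - k)` with some `κ > 0`, 100 percent of them have exactly `k` such points, and their
portrait, i.e. the set of these `k` points together with the action of the endomorphism on it, has a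
limiting distribution: there is a probability measure `π` on the finite sets of pairs of points such
that for every set `i` of `k` pairs the proportion of those with the portrait `i` converges to `π(i)`.

Proof. The systems for which a given set of `k` pairs is contained in the portrait form a lattice, and
those without common zero are its members outside of the zeros of a polynomial (a minor of the matrix
of the multiples of the forms of degree `2 d - 1`), so their number is asymptotically `a H^m`; here `m`
is at most `2 (d + 1) - k` by the upper bound for the number of all systems with `k` such points. The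
systems with `k + 1` such points are negligible, and the number of the systems with `k` such points,
one of them of height at least `2^κ`, is `O(2^(-κ) H^(2 (d + 1) - k))`, uniformly in `H` and `κ`.
-/

set_option autoImplicit false

open MvPolynomial Filter Topology

namespace Pool.Agent.Results.MP_c076ed_nt.PortraitLimitLaw

/-- The pairs of binary forms of degree `d` with integral coefficients of absolute value at most
`H`. -/
def Sys (d H : ℕ) : Set (Fin 2 → MvPolynomial (Fin 2) ℤ) :=
  {F | ∀ i, (F i).IsHomogeneous d ∧ ∀ m, |(F i).coeff m| ≤ H}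

/-- The self-map of `ℂ²` given by the pair `F`. -/
noncomputable def act (F : Fin 2 → MvPolynomial (Fin 2) ℤ) (x : Fin 2 → ℂ) : Fin 2 → ℂ :=
  fun i => aeval x (F i)

/-- `F` defines an endomorphism of `P^1`: no common zero in `ℂ²` except `0`. -/
def IsMorphism (F : Fin 2 → MvPolynomial (Fin 2) ℤ) : Prop :=
  ∀ x : Fin 2 → ℂ, act F x = 0 → x = 0

/-- The first non zero coordinate of `x` is 1, i.e. `x = (1, t)` or `x = (0, 1)`. Every point of
`P^1(ℂ)` has exactly one such vector of homogeneous coordinates. -/
def Normalized (x : Fin 2 → ℂ) : Prop := ∃ l, x l = 1 ∧ ∀ j < l, x j = 0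

/-- The preperiodic points of degree at most `D`, given by their normalized coordinates: these lie in
some number field of degree at most `D`, and two different iterates of the point are equal, i.e.
proportional as vectors. -/
def IsPoint (D : ℕ) (F : Fin 2 → MvPolynomial (Fin 2) ℤ) (x : Fin 2 → ℂ) : Prop :=
  Normalized x ∧
    (∃ K : IntermediateField ℚ ℂ, FiniteDimensional ℚ K ∧ Module.finrank ℚ K ≤ D ∧
      ∀ l, x l ∈ K) ∧
    ∃ m n : ℕ, m < n ∧ ∃ c : ℂ, c ≠ 0 ∧ (act F)^[n] x = c • (act F)^[m] x

/-- The portrait: the set of the pairs of a preperiodic point of degree at most `D` and its image. -/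
def portrait (D : ℕ) (F : Fin 2 → MvPolynomial (Fin 2) ℤ) : Set ((Fin 2 → ℂ) × (Fin 2 → ℂ)) :=
  {q | IsPoint D F q.1 ∧ Normalized q.2 ∧ ∃ c : ℂ, c ≠ 0 ∧ act F q.1 = c • q.2}

/-- The pairs of forms of the box which define endomorphisms of `P^1` with at least `k` preperiodic
points of degree at most `D`. -/
def WithPoints (D k d H : ℕ) : Set (Fin 2 → MvPolynomial (Fin 2) ℤ) :=
  {F | F ∈ Sys d H ∧ IsMorphism F ∧
    ∃ x : Fin k → Fin 2 → ℂ, Function.Injective x ∧ ∀ i, IsPoint D F (x i)}

/-- The pairs of forms of the box which define endomorphisms of `P^1` with the portrait `i`. -/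
def WithPortrait (D d H : ℕ) (i : Finset ((Fin 2 → ℂ) × (Fin 2 → ℂ))) :
    Set (Fin 2 → MvPolynomial (Fin 2) ℤ) :=
  {F | F ∈ Sys d H ∧ IsMorphism F ∧ portrait D F = i}

open Pool.Agent.W276.GE

theorem act_eq {d H : ℕ} {F : Fin 2 → MvPolynomial (Fin 2) ℤ} (hF : F ∈ PS 1 d H) :
    act F = Pool.Agent.R414.EA.fm ℂ (fun i => cf d (F i)) := by
  funext x i
  exact aeval_eq_ev (hF i).1 x

theorem isMorphism_iff {d H : ℕ} {F : Fin 2 → MvPolynomial (Fin 2) ℤ} (hF : F ∈ PS 1 d H) :
    IsMorphism F ↔ NoZero fun i => cf d (F i) := by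
  unfold IsMorphism NoZero
  refine forall_congr' fun x => ?_
  rw [act_eq hF, funext_iff]
  rfl

theorem isPoint_iff {D d H : ℕ} {F : Fin 2 → MvPolynomial (Fin 2) ℤ} (hF : F ∈ PS 1 d H)
    (x : Fin 2 → ℂ) : IsPoint D F x ↔ Pool.Agent.R414.EG.Pt D (fun i => cf d (F i)) x := by
  unfold IsPoint
  rw [act_eq hF]
  rfl

theorem portrait_eq {D d H : ℕ} {F : Fin 2 → MvPolynomial (Fin 2) ℤ} (hF : F ∈ PS 1 d H) :
    portrait D F = Pool.Agent.R414.EG.Port D (fun i => cf d (F i)) := by
  ext q
  unfold portrait
  rw [Set.mem_ofPred_eq, isPoint_iff hF, act_eq hF]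
  rfl

theorem count_points (D k d H : ℕ) : (WithPoints D k d H).ncard =
    ({F | F ∈ Fb (1 + 1) d H ∧ (NoZero F ∧ Pool.Agent.R414.EA.ManyC D k F)} :
      Set (Fin (1 + 1) → E (1 + 1) d → ℤ)).ncard := by
  refine ncard_PS 1 d H (fun F => IsMorphism F ∧
    ∃ x : Fin k → Fin 2 → ℂ, Function.Injective x ∧ ∀ i, IsPoint D F (x i))
    (fun G => NoZero G ∧ Pool.Agent.R414.EA.ManyC D k G) fun F hF => ?_
  rw [isMorphism_iff hF]
  refine and_congr_right fun _ => ?_
  constructor
  · rintro ⟨x, hx, h⟩
    exact Pool.Agent.R414.EG.manyC_of_pts x hx fun i => (isPoint_iff hF _).mp (h i)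
  · intro h
    obtain ⟨x, hx, h'⟩ := Pool.Agent.R414.EG.pts_of_manyC h
    exact ⟨x, hx, fun i => (isPoint_iff hF _).mpr (h' i)⟩

theorem count_portrait (D d H : ℕ) (i : Finset ((Fin 2 → ℂ) × (Fin 2 → ℂ))) :
    (WithPortrait D d H i).ncard =
    ({F | F ∈ Fb (1 + 1) d H ∧ (NoZero F ∧ Pool.Agent.R414.EG.Port D F = i)} :
      Set (Fin (1 + 1) → E (1 + 1) d → ℤ)).ncard := by
  refine ncard_PS 1 d H (fun F => IsMorphism F ∧ portrait D F = i)
    (fun G => NoZero G ∧ Pool.Agent.R414.EG.Port D G = i) fun F hF => ?_
  rw [isMorphism_iff hF, portrait_eq hF]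

/-- **The limit law of the portraits.** For all `D, k ≥ 1` and all `d ≥ d₀(D, k)` there are `κ > 0`
and a probability measure `π` on the finite sets of pairs of vectors, concentrated on the sets with
`k` elements, such that the number of the pairs of forms of the box which define endomorphisms of
`P^1` with at least `k` preperiodic points of degree at most `D` is asymptotically
`κ H^(2 (d + 1) - k)`, and for every set `i` with `k` elements the proportion of those of them with
the portrait `i` converges to `π(i)`. -/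
theorem result (D k : ℕ) (hD : 1 ≤ D) (hk : 1 ≤ k) : ∃ d₀ : ℕ, ∀ d, d₀ ≤ d →
    ∃ (κ : ℝ) (π : Finset ((Fin 2 → ℂ) × (Fin 2 → ℂ)) → ℝ), 0 < κ ∧ (∀ i, 0 ≤ π i) ∧
      (∀ i, i.card ≠ k → π i = 0) ∧ HasSum π 1 ∧
      Tendsto (fun H : ℕ => ((WithPoints D k d H).ncard : ℝ) / (H : ℝ) ^ (2 * (d + 1) - k)) atTop
        (𝓝 κ) ∧
      ∀ i, i.card = k → Tendsto (fun H : ℕ => ((WithPortrait D d H i).ncard : ℝ) /
        (WithPoints D k d H).ncard) atTop (𝓝 (π i)) := by
  obtain ⟨d₀, hd₀⟩ := Pool.Agent.R414.EG.law 1 D k le_rfl hD hk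
  refine ⟨d₀, fun d hd => ?_⟩
  obtain ⟨a, κ, hκ, ha, hak, hsum, hS, hE⟩ := hd₀ d hd
  have e1 : (1 + 1) * (1 + d).choose 1 - k * 1 = 2 * (d + 1) - k := by
    rw [Nat.choose_one_right, mul_one, add_comm 1 d]
  rw [e1] at hS
  simp only [e1] at hE
  have hS' : Tendsto (fun H : ℕ => ((WithPoints D k d H).ncard : ℝ) /
      (H : ℝ) ^ (2 * (d + 1) - k)) atTop (𝓝 κ) := by
    refine hS.congr fun H => ?_
    rw [count_points]
  refine ⟨κ, fun i => a i / κ, hκ, fun i => div_nonneg (ha i) hκ.le, fun i hi => ?_, ?_, hS',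
    fun i hi => ?_⟩
  · show a i / κ = 0
    rw [hak i hi, zero_div]
  · have := hsum.div_const κ
    rwa [div_self hκ.ne'] at this
  · have h1 := (hE i hi).div hS' hκ.ne'
    refine h1.congr' ?_
    filter_upwards [eventually_ge_atTop 1] with H hH
    have hH0 : (0 : ℝ) < (H : ℝ) ^ (2 * (d + 1) - k) := by
      have : (0 : ℝ) < H := by exact_mod_cast hH
      positivity
    rw [count_portrait]
    exact div_div_div_cancel_right₀ hH0.ne' _ _

end Pool.Agent.Results.MP_c076ed_nt.PortraitLimitLaw
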