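import Pool.Agent.Results.MP_c076ed_nt.UniformBoundNearAPoint
import Pool.Agent.R909.RandCong
import Pool.Agent.R479.DA.Lim

/-!
# Uniform boundedness of the preperiodic points for all rational maps congruent to random residues

Let `N j` be the norms of moduli with a convergent sum of the `N j ^ (-s)` (such as the squareful
numbers, for `s > 1 / 2`), let `X j` be random residues, each value of which has probability
`O (N j ^ (-δ))`, `s < δ`, and let `φ j` be any maps from the rational maps of degree `d ≥ 2` over `ℚ` to the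
residues, taking the same value on conjugate maps (for example the values modulo `j` of an invariant).
Almost surely, for every `τ > 0` there is `M` such that EVERY rational map `F` of degree `d`, given by
integral coefficients of absolute value at most `T`, with `φ j F = X j` for some `j` with `T ^ τ ≤ N j` has
at most `M` rational preperiodic points. The number `m` of the rational preperiodic points which is
exceeded only in finitely many conjugacy classes does not depend on chance.

The proof uses the theorem FewExceptionalClasses of this folder (helper323), conjugation invariance and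
Northcott's theorem for one map (UniformBoundNearAPoint of this folder, helper559), and the
Borel-Cantelli lemma in the form of `Pool.Agent.R909.RandCong` (helper909).
-/

set_option autoImplicit false

namespace Pool.Agent.Results.MP_c076ed_nt.RandomResidues

open MeasureTheory Filter
open FewExceptionalClasses (act IsEndomorphism preperiodic Conjugate)
open UniformBoundNearAPoint (st conj_prep prep_finite)

variable {d : ℕ}

/-- the coefficients are at most `T` in absolute value -/
def Bounded (T : ℕ) (F : Fin 2 → Fin (d + 1) → ℤ) : Prop := ∀ i j, |F i j| ≤ (T : ℤ)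

/-- the class of an endomorphism -/
def IsClass (z : Quotient (st d)) : Prop := ∃ F, Quotient.mk (st d) F = z ∧ IsEndomorphism F

/-- the least bound for the coefficients of an endomorphism in the class -/
noncomputable def ht (z : Quotient (st d)) : ℕ :=
  sInf {T : ℕ | 1 ≤ T ∧ ∃ F, Quotient.mk (st d) F = z ∧ IsEndomorphism F ∧ Bounded T F}

/-- all endomorphisms in the class have at most `M` rational preperiodic points -/
def Good (M : ℝ) (z : Quotient (st d)) : Prop :=
  ∀ F, Quotient.mk (st d) F = z → IsEndomorphism F → (preperiodic F).encard ≤ ((⌊M⌋₊ : ℕ) : ℕ∞)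

theorem bounded_mono {T T' : ℕ} (h : T ≤ T') {F : Fin 2 → Fin (d + 1) → ℤ} (hF : Bounded T F) :
    Bounded T' F := fun i j => (hF i j).trans (by exact_mod_cast h)

theorem ht_spec {z : Quotient (st d)} (h : IsClass z) :
    1 ≤ ht z ∧ ∃ F, Quotient.mk (st d) F = z ∧ IsEndomorphism F ∧ Bounded (ht z) F := by
  refine Nat.sInf_mem (s := {T : ℕ | 1 ≤ T ∧ ∃ F, Quotient.mk (st d) F = z ∧ IsEndomorphism F ∧
    Bounded T F}) ?_
  obtain ⟨F, h1, h2⟩ := h
  refine ⟨1 + ∑ i, ∑ j, (F i j).natAbs, by omega, F, h1, h2, fun i j => ?_⟩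
  have h3 : (F i j).natAbs ≤ ∑ j, (F i j).natAbs :=
    Finset.single_le_sum (f := fun j => (F i j).natAbs) (fun _ _ => Nat.zero_le _)
      (Finset.mem_univ j)
  have h4 : ∑ j, (F i j).natAbs ≤ ∑ i, ∑ j, (F i j).natAbs :=
    Finset.single_le_sum (f := fun i => ∑ j, (F i j).natAbs) (fun _ _ => Nat.zero_le _)
      (Finset.mem_univ i)
  rw [Int.abs_eq_natAbs]
  exact_mod_cast h3.trans (h4.trans (Nat.le_add_left _ _))

theorem ht_le {T : ℕ} (hT : 1 ≤ T) {F : Fin 2 → Fin (d + 1) → ℤ} (hF : IsEndomorphism F)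
    (hb : Bounded T F) : ht (Quotient.mk (st d) F) ≤ T :=
  Nat.sInf_le (s := {T : ℕ | 1 ≤ T ∧ ∃ G, Quotient.mk (st d) G = Quotient.mk (st d) F ∧
    IsEndomorphism G ∧ Bounded T G}) ⟨hT, F, rfl, hF, hb⟩

/-- the classes with many rational preperiodic points have a convergent sum -/
theorem summable_bad (hd : 2 ≤ d) {p : ℝ} (hp : 0 < p) : ∃ m : ℕ,
    Summable fun z : {z : Quotient (st d) // IsClass z ∧ ¬ Good (m : ℝ) z} =>
      ((ht z.1 : ℕ) : ℝ) ^ (-p) := by
  classical
  obtain ⟨m, C, hC⟩ := FewExceptionalClasses.result d hd (p / 2) (by positivity)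
  refine ⟨m, ?_⟩
  refine Pool.Agent.R479.DA.summable_heights
    (fun z : {z : Quotient (st d) // IsClass z ∧ ¬ Good (m : ℝ) z} => ((ht z.1 : ℕ) : ℝ)) ?_
    (s := p / 2) (p := p) (C := |C|) (by linarith) hp ?_
  · rintro ⟨z, h1, h2⟩
    exact_mod_cast (ht_spec h1).1
  · intro Z hZ
    set T : ℕ := ⌊Z⌋₊ with hT
    have hT1 : 1 ≤ T := Nat.le_floor (by exact_mod_cast hZ)
    set Q : Set {z : Quotient (st d) // IsClass z ∧ ¬ Good (m : ℝ) z} :=
      {z | ((ht z.1 : ℕ) : ℝ) ≤ Z} with hQ
    have hrep : ∀ z ∈ Q, ∃ F, Quotient.mk (st d) F = z.1 ∧ IsEndomorphism F ∧ Bounded T F ∧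
        (m : ℕ∞) < (preperiodic F).encard := by
      rintro ⟨z, h1, h2⟩ h3
      obtain ⟨-, F, k1, k2, k3⟩ := ht_spec h1
      have h4 : ht z ≤ T := Nat.le_floor h3
      unfold Good at h2
      push Not at h2
      obtain ⟨G, g1, g2, g3⟩ := h2
      rw [Nat.floor_natCast] at g3
      refine ⟨F, k1, k2, bounded_mono h4 k3, g3.trans_le ?_⟩
      exact conj_prep g2 (Quotient.exact (s := st d) (g1.trans k1.symm))
    have key : ∀ P : Finset {z : Quotient (st d) // IsClass z ∧ ¬ Good (m : ℝ) z},
        (∀ z ∈ P, z ∈ Q) → (P.card : ℝ) ≤ C * (T : ℝ) ^ (p / 2) := by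
      intro P hP
      have hP' : ∀ z ∈ P, ∃ F, Quotient.mk (st d) F = z.1 ∧ IsEndomorphism F ∧ Bounded T F ∧
        (m : ℕ∞) < (preperiodic F).encard := fun z hz => hrep z (hP z hz)
      choose! g hg using hP'
      have hinj : Set.InjOn g P := by
        intro z hz z' hz' he
        apply Subtype.ext
        rw [← (hg z hz).1, ← (hg z' hz').1, he]
      rw [← Finset.card_image_of_injOn hinj]
      refine hC T hT1 (P.image g) ?_ ?_
      · intro F hF
        obtain ⟨z, hz, rfl⟩ := Finset.mem_image.1 hF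
        exact (hg z hz).2
      · intro F hF G hG hne hc
        obtain ⟨z, hz, rfl⟩ := Finset.mem_image.1 hF
        obtain ⟨z', hz', rfl⟩ := Finset.mem_image.1 hG
        apply hne
        have : z = z' := by
          apply Subtype.ext
          rw [← (hg z hz).1, ← (hg z' hz').1]
          exact Quotient.sound (s := st d) hc
        rw [this]
    have hfin : Q.Finite := by
      by_contra hinf
      obtain ⟨P, hP1, hP2⟩ := (show Q.Infinite from hinf).exists_subset_card_eq
        (⌊C * (T : ℝ) ^ (p / 2)⌋₊ + 1)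
      have h2 := key P (fun x hx => hP1 hx)
      rw [hP2] at h2
      push_cast at h2
      have h3 := Nat.lt_floor_add_one (C * (T : ℝ) ^ (p / 2))
      linarith
    refine ⟨hfin, ?_⟩
    rw [Set.ncard_eq_toFinset_card _ hfin]
    have hTZ : (T : ℝ) ≤ Z := Nat.floor_le (by linarith)
    calc (hfin.toFinset.card : ℝ) ≤ C * (T : ℝ) ^ (p / 2) := key hfin.toFinset (fun x hx => by
          rw [Set.Finite.mem_toFinset] at hx
          exact hx)
      _ ≤ |C| * (T : ℝ) ^ (p / 2) := mul_le_mul_of_nonneg_right (le_abs_self _) (by positivity)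
      _ ≤ |C| * Z ^ (p / 2) := mul_le_mul_of_nonneg_left
          (Real.rpow_le_rpow (Nat.cast_nonneg _) hTZ (by positivity)) (abs_nonneg C)

/-- **Theorem.** Let `d ≥ 2`, let `N j ≥ 1` have a convergent sum of the `N j ^ (-s)`, let `X j` be random
elements of the sets `Rs j`, each value of which has probability at most `C * N j ^ (-δ)`, `s < δ` (no
independence is assumed), and let `φ j` be maps to `Rs j` from the pairs of binary forms of degree `d`
with integral coefficients, which take the same value on conjugate pairs.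

(1) Almost surely, for every `τ > 0` there is `M` such that EVERY endomorphism `F` of the projective
line of degree `d`, given by integral coefficients of absolute value at most `T`, with `T ^ τ ≤ N j` and
`φ j F = X j` for some `j`, has at most `M` rational preperiodic points.

(2) For `τ > 0` and `0 ≤ η < (δ - s) τ` there is `m` such that almost surely the endomorphisms as in (1)
with more than `m` rational preperiodic points lie in finitely many conjugacy classes, and the
probability that there is one in a class without endomorphisms with coefficients less than `y` is at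
most `B y ^ (-η)`, for some `B` and all `y ≥ 1`. -/
theorem result (d : ℕ) (hd : 2 ≤ d) (J Ω : Type) [MeasurableSpace Ω] (P : Measure Ω)
    (Rs : J → Type) (N : J → ℝ) (X : ∀ j : J, Ω → Rs j)
    (φ : ∀ j : J, (Fin 2 → Fin (d + 1) → ℤ) → Rs j)
    (hφ : ∀ j, ∀ F G, Conjugate F G → φ j F = φ j G)
    (s δ C : ℝ) (hN : ∀ j, 1 ≤ N j) (hs : s < δ) (hsum : Summable fun j => N j ^ (-s))
    (hX : ∀ j, ∀ r : Rs j, P {ω | X j ω = r} ≤ ENNReal.ofReal (C * N j ^ (-δ))) :
    (∀ᵐ ω ∂P, ∀ τ : ℝ, 0 < τ → ∃ M : ℕ, ∀ (j : J) (F : Fin 2 → Fin (d + 1) → ℤ) (T : ℕ), 1 ≤ T →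
      IsEndomorphism F → Bounded T F → (T : ℝ) ^ τ ≤ N j → φ j F = X j ω →
        (preperiodic F).encard ≤ (M : ℕ∞)) ∧
    (∀ τ η : ℝ, 0 < τ → 0 ≤ η → η < (δ - s) * τ → ∃ m : ℕ,
      (∀ᵐ ω ∂P, ∃ S : Finset (Fin 2 → Fin (d + 1) → ℤ),
        ∀ (j : J) (F : Fin 2 → Fin (d + 1) → ℤ) (T : ℕ), 1 ≤ T → IsEndomorphism F → Bounded T F →
          (T : ℝ) ^ τ ≤ N j → φ j F = X j ω → (m : ℕ∞) < (preperiodic F).encard →
          ∃ G ∈ S, Conjugate G F) ∧
      ∃ B : ℝ, ∀ y : ℝ, 1 ≤ y →
        P {ω | ∃ (j : J) (F : Fin 2 → Fin (d + 1) → ℤ) (T : ℕ), 1 ≤ T ∧ IsEndomorphism F ∧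
          Bounded T F ∧ (T : ℝ) ^ τ ≤ N j ∧ φ j F = X j ω ∧ (m : ℕ∞) < (preperiodic F).encard ∧
          ∀ G, Conjugate G F → IsEndomorphism G → ∀ T' : ℕ, (T' : ℝ) < y → ¬ Bounded T' G} ≤
          ENNReal.ofReal (B * y ^ (-η))) := by
  classical
  let ψ : ∀ j : J, Quotient (st d) → Rs j := fun j z => Quotient.lift (φ j) (hφ j) z
  have hH : ∀ z : Quotient (st d), IsClass z → (1 : ℝ) ≤ ((ht z : ℕ) : ℝ) := fun z hz => by
    exact_mod_cast (ht_spec hz).1
  have key : ∀ (F : Fin 2 → Fin (d + 1) → ℤ) (T : ℕ) (τ : ℝ), 0 ≤ τ → 1 ≤ T → IsEndomorphism F →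
      Bounded T F → ((ht (Quotient.mk (st d) F) : ℕ) : ℝ) ^ τ ≤ (T : ℝ) ^ τ := by
    intro F T τ hτ hT hF hb
    exact Real.rpow_le_rpow (Nat.cast_nonneg _) (by exact_mod_cast ht_le hT hF hb) hτ
  constructor
  · have h1 : ∀ᵐ ω ∂P, ∀ τ : ℝ, 0 < τ → ∃ M : ℝ, ∀ j z, IsClass z → ((ht z : ℕ) : ℝ) ^ τ ≤ N j →
        ψ j z = X j ω → Good M z := by
      refine Pool.Agent.R909.RC.all_tau (Q := fun z : Quotient (st d) => IsClass z)
        (G := fun M z => Good M z) (H := fun z => ((ht z : ℕ) : ℝ)) hH ?_ ?_ ?_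
      · intro z _ M M' hMM h F hF1 hF2
        refine (h F hF1 hF2).trans ?_
        exact_mod_cast Nat.floor_mono hMM
      · intro S hS hSc
        have hb : ∀ z : Quotient (st d), IsClass z → ∃ M : ℕ, Good (M : ℝ) z := by
          rintro z ⟨F, k1, k2⟩
          obtain ⟨M, hM⟩ := prep_finite hd k2
          refine ⟨M, fun G g1 g2 => ?_⟩
          rw [Nat.floor_natCast]
          exact (conj_prep g2 (Quotient.exact (s := st d) (g1.trans k1.symm))).trans hM
        choose! b hb using hb
        refine ⟨((hS.toFinset.sup b : ℕ) : ℝ), fun z hz F hF1 hF2 => ?_⟩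
        have h3 := hb z (hSc z hz) F hF1 hF2
        rw [Nat.floor_natCast] at h3 ⊢
        refine h3.trans ?_
        exact_mod_cast Finset.le_sup (f := b) (hS.mem_toFinset.2 hz)
      · intro k
        have hpos : 0 < (δ - s) * (1 / ((k : ℝ) + 1)) := mul_pos (by linarith) (by positivity)
        obtain ⟨m, hm⟩ := summable_bad hd hpos
        exact ⟨m, (Pool.Agent.R909.RC.main_subtype (P := P) (T := Quotient (st d))
          (H := fun z => ((ht z : ℕ) : ℝ)) (Q := fun z => IsClass z ∧ ¬ Good (m : ℝ) z) (X := X)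
          (φ := ψ) (fun z hz => hH z hz.1) hN hs.le hX hsum le_rfl
          (p := (δ - s) * (1 / ((k : ℝ) + 1))) (by linarith) hm).1⟩
    filter_upwards [h1] with ω hω τ hτ
    obtain ⟨M, hM⟩ := hω τ hτ
    refine ⟨⌊M⌋₊, fun j F T hT hF hb hTN hj => ?_⟩
    exact hM j (Quotient.mk (st d) F) ⟨F, rfl, hF⟩ ((key F T τ hτ.le hT hF hb).trans hTN) hj F rfl hF
  · intro τ η hτ hη hητ
    obtain ⟨m, hm⟩ := summable_bad hd (p := (δ - s) * τ - η) (by linarith)
    obtain ⟨h1, B, hB⟩ := Pool.Agent.R909.RC.main_subtype (P := P) (T := Quotient (st d))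
      (H := fun z => ((ht z : ℕ) : ℝ)) (Q := fun z => IsClass z ∧ ¬ Good (m : ℝ) z) (X := X)
      (φ := ψ) (τ := τ) (fun z hz => hH z hz.1) hN hs.le hX hsum hη
      (p := (δ - s) * τ - η) (by linarith) hm
    have hbad : ∀ F : Fin 2 → Fin (d + 1) → ℤ, IsEndomorphism F →
        (m : ℕ∞) < (preperiodic F).encard → IsClass (Quotient.mk (st d) F) ∧
          ¬ Good (m : ℝ) (Quotient.mk (st d) F) := by
      intro F hF hmF
      refine ⟨⟨F, rfl, hF⟩, fun hg => ?_⟩
      have h3 := hg F rfl hF
      rw [Nat.floor_natCast] at h3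
      exact absurd h3 (not_le.2 hmF)
    refine ⟨m, ?_, B, fun y hy => ?_⟩
    · filter_upwards [h1] with ω hω
      refine ⟨(hω.toFinset.image fun i => i.2.out), fun j F T hT hF hb hTN hj hmF => ?_⟩
      refine ⟨(Quotient.mk (st d) F).out, ?_, Quotient.exact (s := st d) (Quotient.out_eq _)⟩
      refine Finset.mem_image.2 ⟨(j, Quotient.mk (st d) F), ?_, rfl⟩
      rw [Set.Finite.mem_toFinset]
      exact ⟨hbad F hF hmF, (key F T τ hτ.le hT hF hb).trans hTN, hj⟩
    · refine le_trans (measure_mono ?_) (hB y hy)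
      rintro ω ⟨j, F, T, hT, hF, hb, hTN, hj, hmF, hG⟩
      obtain ⟨k1, k2⟩ := hbad F hF hmF
      refine ⟨(j, Quotient.mk (st d) F), ⟨k1, k2⟩, ?_, (key F T τ hτ.le hT hF hb).trans hTN, hj⟩
      by_contra hcon
      push Not at hcon
      obtain ⟨-, G, g1, g2, g3⟩ := ht_spec k1
      exact hG G (Quotient.exact (s := st d) g1) g2 _ hcon g3

end Pool.Agent.Results.MP_c076ed_nt.RandomResidues
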