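import Pool.Agent.Results.MP_c076ed_nt.FewExceptionalClasses
import Pool.Agent.R559.NP.Dyn
import Pool.Agent.R559.NP.Near3

/-!
# Uniform boundedness of the preperiodic points for all rational maps near a given point

Let `φ` be any map from the rational maps of degree `d ≥ 2` over `ℚ` to a metric space `X` which takes the same value on
conjugate maps, for example the point of the moduli space over `ℝ` or `ℚ_p`.  For all `ξ ∈ X` outside a set of Hausdorff
dimension zero, all `τ > 0` and all `κ` there is `M` such that EVERY rational map `F` of degree `d`, given by integral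
coefficients of absolute value at most `T`, with `dist (φ F) ξ ≤ κ T ^ (-τ)` has at most `M` rational preperiodic points.
All these maps but those in finitely many conjugacy classes have at most `N` rational preperiodic points, with `N`
independent of `κ`.
-/

set_option autoImplicit false

namespace Pool.Agent.Results.MP_c076ed_nt.UniformBoundNearAPoint

open Filter Topology
open FewExceptionalClasses (act IsEndomorphism preperiodic Conjugate)

variable {d : ℕ}

lemma act_smul (F : Fin 2 → Fin (d + 1) → ℤ) (a : ℚ) (v : Fin 2 → ℚ) : act F (a • v) = a ^ d • act F v :=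
  Pool.Agent.R323.ac_smul (fun i j => (F i j : ℚ)) a v

lemma iter_smul (F : Fin 2 → Fin (d + 1) → ℤ) (a : ℚ) (v : Fin 2 → ℚ) (n : ℕ) :
    (act F)^[n] (a • v) = a ^ (d ^ n) • (act F)^[n] v :=
  Pool.Agent.R323.ac_iter_smul (fun i j => (F i j : ℚ)) a v n

lemma act_ne {F : Fin 2 → Fin (d + 1) → ℤ} (hF : IsEndomorphism F) {v : Fin 2 → ℚ} (hv : v ≠ 0) :
    act F v ≠ 0 := by
  intro h
  apply hv
  have h1 := Pool.Agent.R323.ac_map (algebraMap ℚ (AlgebraicClosure ℚ)) (fun i j => (F i j : ℚ)) v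
  have h2 : act F (fun i => algebraMap ℚ (AlgebraicClosure ℚ) (v i)) = 0 := by
    funext i
    have h3 := congrFun h1 i
    have h4 : Pool.Agent.R323.ac (fun i j => (F i j : ℚ)) v = 0 := h
    simp only [h4, Pi.zero_apply, map_zero, map_intCast] at h3
    exact h3.symm
  have h5 := hF _ h2
  funext i
  have h6 := congrFun h5 i
  simpa using h6

lemma iter_ne {F : Fin 2 → Fin (d + 1) → ℤ} (hF : IsEndomorphism F) {v : Fin 2 → ℚ} (hv : v ≠ 0) (n : ℕ) :
    (act F)^[n] v ≠ 0 := by
  induction n with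
  | zero => exact hv
  | succ n ih =>
    rw [Function.iterate_succ_apply']
    exact act_ne hF ih

lemma conj_refl (F : Fin 2 → Fin (d + 1) → ℤ) : Conjugate F F :=
  ⟨1, by simp, fun v _ => ⟨1, one_ne_zero, by simp⟩⟩

lemma mulVec_ne {A : Matrix (Fin 2) (Fin 2) ℚ} (hA : A.det ≠ 0) {v : Fin 2 → ℚ} (hv : v ≠ 0) :
    A.mulVec v ≠ 0 := by
  intro h
  exact hv (Matrix.eq_zero_of_mulVec_eq_zero hA h)

lemma conj_symm {F G : Fin 2 → Fin (d + 1) → ℤ} (h : Conjugate F G) : Conjugate G F := by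
  obtain ⟨A, hA, h⟩ := h
  have hu : IsUnit A.det := isUnit_iff_ne_zero.2 hA
  have hA' : (A⁻¹).det ≠ 0 := by
    rw [Matrix.det_nonsing_inv]
    exact isUnit_iff_ne_zero.1 (hu.ringInverse)
  refine ⟨A⁻¹, hA', fun v hv => ?_⟩
  obtain ⟨c, hc, h1⟩ := h (A⁻¹.mulVec v) (mulVec_ne hA' hv)
  rw [Matrix.mulVec_mulVec, Matrix.mul_nonsing_inv A hu, Matrix.one_mulVec] at h1
  refine ⟨c⁻¹, inv_ne_zero hc, ?_⟩
  rw [h1, Matrix.mulVec_smul, Matrix.mulVec_mulVec, Matrix.nonsing_inv_mul A hu, Matrix.one_mulVec, smul_smul,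
    inv_mul_cancel₀ hc, one_smul]

lemma conj_trans {F G H : Fin 2 → Fin (d + 1) → ℤ} (h : Conjugate F G) (h' : Conjugate G H) : Conjugate F H := by
  obtain ⟨A, hA, h⟩ := h
  obtain ⟨B, hB, h'⟩ := h'
  refine ⟨B * A, by rw [Matrix.det_mul]; exact mul_ne_zero hB hA, fun v hv => ?_⟩
  obtain ⟨c, hc, h1⟩ := h v hv
  obtain ⟨c', hc', h2⟩ := h' (A.mulVec v) (mulVec_ne hA hv)
  refine ⟨c' * c, mul_ne_zero hc' hc, ?_⟩
  rw [← Matrix.mulVec_mulVec, h2, h1, Matrix.mulVec_smul, smul_smul, Matrix.mulVec_mulVec]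

/-- the iterates of conjugate maps -/
lemma conj_iter {F G : Fin 2 → Fin (d + 1) → ℤ} (hF : IsEndomorphism F) {A : Matrix (Fin 2) (Fin 2) ℚ}
    (h : ∀ v : Fin 2 → ℚ, v ≠ 0 → ∃ c : ℚ, c ≠ 0 ∧ act G (A.mulVec v) = c • A.mulVec (act F v))
    {v : Fin 2 → ℚ} (hv : v ≠ 0) (n : ℕ) :
    ∃ c : ℚ, c ≠ 0 ∧ (act G)^[n] (A.mulVec v) = c • A.mulVec ((act F)^[n] v) := by
  induction n with
  | zero => exact ⟨1, one_ne_zero, by simp⟩
  | succ n ih =>
    obtain ⟨c, hc, h1⟩ := ih
    obtain ⟨c', hc', h2⟩ := h _ (iter_ne hF hv n)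
    refine ⟨c ^ d * c', mul_ne_zero (pow_ne_zero _ hc) hc', ?_⟩
    rw [Function.iterate_succ_apply', Function.iterate_succ_apply', h1, act_smul, h2, smul_smul]

/-- conjugate maps have the same number of rational preperiodic points -/
lemma conj_prep {F G : Fin 2 → Fin (d + 1) → ℤ} (hF : IsEndomorphism F) (h : Conjugate F G) :
    (preperiodic F).encard ≤ (preperiodic G).encard := by
  obtain ⟨A, hA, h⟩ := h
  have hinj : Function.Injective (Matrix.mulVecLin A) := by
    rw [injective_iff_map_eq_zero]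
    intro v hv
    exact Matrix.eq_zero_of_mulVec_eq_zero hA hv
  rw [← Function.Injective.encard_image (Projectivization.map_injective _ hinj) (preperiodic F)]
  refine Set.encard_le_encard ?_
  rintro _ ⟨p, ⟨m, n, hmn, c, hc, hp⟩, rfl⟩
  obtain ⟨a, ha⟩ : ∃ a : ℚ, a ≠ 0 ∧
      (Projectivization.map (Matrix.mulVecLin A) hinj p).rep = a • A.mulVec p.rep := by
    have h0 : A.mulVec p.rep ≠ 0 := mulVec_ne hA p.rep_nonzero
    have h1 : Projectivization.map (Matrix.mulVecLin A) hinj p = Projectivization.mk ℚ (A.mulVec p.rep) h0 := by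
      conv_lhs => rw [← p.mk_rep]
      rw [Projectivization.map_mk]
      rfl
    obtain ⟨u, hu⟩ := Projectivization.exists_smul_eq_mk_rep ℚ (A.mulVec p.rep) h0
    refine ⟨(u : ℚ), u.ne_zero, ?_⟩
    rw [h1, ← hu]
    rfl
  obtain ⟨ha0, ha⟩ := ha
  obtain ⟨c1, hc1, e1⟩ := conj_iter hF h p.rep_nonzero n
  obtain ⟨c2, hc2, e2⟩ := conj_iter hF h p.rep_nonzero m
  refine ⟨m, n, hmn, a ^ (d ^ n) * c1 * c * (a ^ (d ^ m) * c2)⁻¹, ?_, ?_⟩
  · have h3 : a ^ (d ^ n) ≠ 0 := pow_ne_zero _ ha0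
    have h4 : a ^ (d ^ m) ≠ 0 := pow_ne_zero _ ha0
    positivity
  · have h4 : a ^ (d ^ m) * c2 ≠ 0 := mul_ne_zero (pow_ne_zero _ ha0) hc2
    have h5 : a ^ (d ^ m) ≠ 0 := pow_ne_zero _ ha0
    rw [ha, iter_smul, iter_smul, e1, e2, hp, Matrix.mulVec_smul]
    simp only [smul_smul]
    congr 1
    field_simp

lemma prep_finite (hd : 2 ≤ d) {F : Fin 2 → Fin (d + 1) → ℤ} (hF : IsEndomorphism F) :
    ∃ N : ℕ, (preperiodic F).encard ≤ N := by
  obtain ⟨N, hN⟩ := Pool.Agent.R559.NP.not_many d hd F (Pool.Agent.R323.NZ_of (by omega) hF)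
  refine ⟨N, ?_⟩
  by_contra hcon
  exact hN (Pool.Agent.R323.many_of F N (not_le.1 hcon))

/-- conjugacy classes -/
def st (d : ℕ) : Setoid (Fin 2 → Fin (d + 1) → ℤ) where
  r F G := Conjugate F G
  iseqv := ⟨conj_refl, conj_symm, conj_trans⟩

/-- **Theorem.** Let `d ≥ 2` and let `φ` be a map from the pairs of binary forms of degree `d` with integral coefficients to
a metric space `X`, which takes the same value on conjugate pairs.  For all `ξ ∈ X` outside a set of Hausdorff dimension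
zero and all `τ > 0`
(1) for every `κ` there is `M` such that every endomorphism `F` of the projective line of degree `d`, given by integral
coefficients of absolute value at most `T`, with `dist (φ F) ξ ≤ κ T ^ (-τ)` has at most `M` rational preperiodic points;
(2) there is `N` such that for every `κ` the endomorphisms with `dist (φ F) ξ ≤ κ T ^ (-τ)` and more than `N` rational
preperiodic points lie in finitely many conjugacy classes. -/
theorem result (d : ℕ) (hd : 2 ≤ d) (X : Type) [MetricSpace X] (φ : (Fin 2 → Fin (d + 1) → ℤ) → X)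
    (hφ : ∀ F G, Conjugate F G → φ F = φ G) :
    ∃ E : Set X, dimH E = 0 ∧ ∀ ξ : X, ξ ∉ E → ∀ τ : ℝ, 0 < τ →
      (∀ κ : ℝ, ∃ M : ℕ, ∀ F : Fin 2 → Fin (d + 1) → ℤ, IsEndomorphism F → ∀ T : ℕ, 1 ≤ T →
        (∀ i j, |F i j| ≤ (T : ℤ)) → dist (φ F) ξ ≤ κ * (T : ℝ) ^ (-τ) → (preperiodic F).encard ≤ M) ∧
      (∃ N : ℕ, ∀ κ : ℝ, ∃ S : Finset (Fin 2 → Fin (d + 1) → ℤ), ∀ F : Fin 2 → Fin (d + 1) → ℤ,
        IsEndomorphism F → ∀ T : ℕ, 1 ≤ T → (∀ i j, |F i j| ≤ (T : ℤ)) →
        dist (φ F) ξ ≤ κ * (T : ℝ) ^ (-τ) → (N : ℕ∞) < (preperiodic F).encard → ∃ G ∈ S, Conjugate G F) := by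
  classical
  have hres := fun j : ℕ => FewExceptionalClasses.result d hd (1 / ((j : ℝ) + 1)) (by positivity)
  choose N C hN using hres
  have hct : Countable (Quotient (st d)) := Quotient.countable
  obtain ⟨E, hE, hE'⟩ := Pool.Agent.R559.NP.near_zero_lvl (Z := Quotient (st d)) (Y := Unit) (X := X)
    (F := fun j _ T => {z | ∃ F : Fin 2 → Fin (d + 1) → ℤ, Quotient.mk (st d) F = z ∧ IsEndomorphism F ∧
      (∀ i j, |F i j| ≤ (T : ℤ)) ∧ (N j : ℕ∞) < (preperiodic F).encard})
    (by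
      rintro j - t t' htt z ⟨F, h1, h2, h3, h4⟩
      exact ⟨F, h1, h2, fun i k => (h3 i k).trans (by exact_mod_cast htt), h4⟩)
    (s := fun j => 1 / ((j : ℝ) + 1)) (fun j => by positivity) tendsto_one_div_add_atTop_nhds_zero_nat
    (by
      intro j _
      refine ⟨|C j|, fun T hT => ?_⟩
      set Q : Set (Quotient (st d)) := {z | ∃ F : Fin 2 → Fin (d + 1) → ℤ, Quotient.mk (st d) F = z ∧
        IsEndomorphism F ∧ (∀ i j, |F i j| ≤ (T : ℤ)) ∧ (N j : ℕ∞) < (preperiodic F).encard} with hQ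
      have key : ∀ P : Finset (Quotient (st d)), (∀ z ∈ P, z ∈ Q) →
          (P.card : ℝ) ≤ C j * (T : ℝ) ^ (1 / ((j : ℝ) + 1)) := by
        intro P hP
        choose! g hg using hP
        have hinj : Set.InjOn g P := by
          intro z hz z' hz' he
          rw [← (hg z hz).1, ← (hg z' hz').1, he]
        rw [← Finset.card_image_of_injOn hinj]
        refine hN j T hT (P.image g) ?_ ?_
        · intro F hF
          obtain ⟨z, hz, rfl⟩ := Finset.mem_image.1 hF
          exact (hg z hz).2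
        · intro F hF G hG hne hc
          obtain ⟨z, hz, rfl⟩ := Finset.mem_image.1 hF
          obtain ⟨z', hz', rfl⟩ := Finset.mem_image.1 hG
          apply hne
          have : z = z' := by
            rw [← (hg z hz).1, ← (hg z' hz').1]
            exact Quotient.sound (s := st d) hc
          rw [this]
      have hfin : Q.Finite := by
        by_contra hinf
        obtain ⟨P, hP1, hP2⟩ := (show Q.Infinite from hinf).exists_subset_card_eq
          (⌊C j * (T : ℝ) ^ (1 / ((j : ℝ) + 1))⌋₊ + 1)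
        have h2 := key P (fun x hx => hP1 hx)
        rw [hP2] at h2
        push_cast at h2
        have h3 := Nat.lt_floor_add_one (C j * (T : ℝ) ^ (1 / ((j : ℝ) + 1)))
        linarith
      refine ⟨hfin, ?_⟩
      rw [Set.ncard_eq_toFinset_card _ hfin]
      refine (key hfin.toFinset (fun x hx => by
        rw [Set.Finite.mem_toFinset] at hx
        exact hx)).trans ?_
      exact mul_le_mul_of_nonneg_right (le_abs_self _) (by positivity))
    (fun _ z => Quotient.lift φ hφ z)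
  refine ⟨E, hE, fun ξ hξ τ hτ => ?_⟩
  obtain ⟨j, hj⟩ := hE' ξ hξ τ hτ
  have hmem : ∀ (κ : ℝ) (F : Fin 2 → Fin (d + 1) → ℤ), IsEndomorphism F → ∀ T : ℕ, 1 ≤ T →
      (∀ i j, |F i j| ≤ (T : ℤ)) → dist (φ F) ξ ≤ κ * (T : ℝ) ^ (-τ) → (N j : ℕ∞) < (preperiodic F).encard →
      Quotient.mk (st d) F ∈ (hj () κ).toFinset := by
    intro κ F hF T hT hc hd' hn
    rw [Set.Finite.mem_toFinset]
    exact ⟨T, hT, ⟨F, rfl, hF, hc, hn⟩, hd'⟩
  constructor
  · intro κ
    -- the bounds for the classes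
    have hb : ∀ z : Quotient (st d), ∃ M : ℕ, ∀ F, Quotient.mk (st d) F = z → IsEndomorphism F →
        (preperiodic F).encard ≤ M := by
      intro z
      by_cases h : ∃ F, Quotient.mk (st d) F = z ∧ IsEndomorphism F
      · obtain ⟨F, h1, h2⟩ := h
        obtain ⟨M, hM⟩ := prep_finite hd h2
        refine ⟨M, fun G hG hG' => ?_⟩
        have hc : Conjugate G F := Quotient.exact (s := st d) (hG.trans h1.symm)
        exact (conj_prep hG' hc).trans hM
      · exact ⟨0, fun F h1 h2 => absurd ⟨F, h1, h2⟩ h⟩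
    choose b hb using hb
    refine ⟨max (N j) ((hj () κ).toFinset.sup b), fun F hF T hT hc hd' => ?_⟩
    rcases le_or_gt (preperiodic F).encard (N j : ℕ∞) with h | h
    · exact h.trans (by exact_mod_cast le_max_left _ _)
    · have h1 := hmem κ F hF T hT hc hd' h
      have h2 := hb _ F rfl hF
      have h3 : b (Quotient.mk (st d) F) ≤ (hj () κ).toFinset.sup b := Finset.le_sup h1
      refine h2.trans ?_
      exact_mod_cast h3.trans (le_max_right _ _)
  · refine ⟨N j, fun κ => ⟨(hj () κ).toFinset.image Quotient.out, fun F hF T hT hc hd' hn => ?_⟩⟩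
    refine ⟨(Quotient.mk (st d) F).out, Finset.mem_image_of_mem _ (hmem κ F hF T hT hc hd' hn), ?_⟩
    exact Quotient.exact (s := st d) (Quotient.out_eq _)

end Pool.Agent.Results.MP_c076ed_nt.UniformBoundNearAPoint
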